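import Mathlib

set_option autoImplicit false

namespace Pool.Agent.Results.MP_4d0c5f_nt.No

open Filter Topology Polynomial

/-- Liouville matrices (supremum norm). -/
def IsLiou {n : ℕ} (A : Matrix (Fin n) (Fin n) ℝ) : Prop :=
  (∀ q p : Fin n → ℤ, (q, p) ≠ 0 → A.mulVec (fun i => (q i : ℝ)) ≠ fun i => (p i : ℝ)) ∧
  ∀ N : ℝ, 0 < N → ∃ p q : Fin n → ℤ, q ≠ 0 ∧
    ‖A.mulVec (fun i => (q i : ℝ)) - fun i => (p i : ℝ)‖ < ‖fun i => (q i : ℝ)‖ ^ (-N)

/-- The Taylor series of `f` at `0`, evaluated at the matrix `A`, converges to `B`. -/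
def MatExt {n : ℕ} (f : ℝ → ℝ) (A B : Matrix (Fin n) (Fin n) ℝ) : Prop :=
  Tendsto (fun m => ∑ j ∈ Finset.range m, (iteratedDeriv j f 0 / j.factorial) • A ^ j) atTop (𝓝 B)

/-- `u z = τ_{a,b,c,d} (v z)` at all points of `I` where the right side is defined. -/
def Coincide (I : Set ℝ) (u v : ℝ → ℝ) (a b c d : ℝ) : Prop :=
  ∀ z ∈ I, c * v z + d ≠ 0 → u z = (a * v z + b) / (c * v z + d)

noncomputable def F (k : ℕ) (z : ℝ) : ℝ := 1 / (1 + ((k : ℝ) + 1) ^ 2 * z ^ 2)

theorem coef (k j : ℕ) :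
    iteratedDeriv j (F k) 0 / j.factorial = ((Complex.I * ((k : ℝ) + 1 : ℝ)) ^ j).re := by
  have h : HasFPowerSeriesAt (F k) (FormalMultilinearSeries.ofScalars ℝ
      fun j => ((Complex.I * ((k : ℝ) + 1 : ℝ)) ^ j).re) 0 := by
    rw [hasFPowerSeriesAt_iff]
    have hc : Continuous fun z : ℝ => ‖Complex.I * ((k : ℝ) + 1 : ℝ) * z‖ := by fun_prop
    filter_upwards [hc.continuousAt.eventually_lt (g := fun _ => 1) (x₀ := 0) continuousAt_const
      (by simp)] with z hz
    have h1 := Complex.reCLM.hasSum (hasSum_geometric_of_norm_lt_one hz)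
    have e1 : (fun n => z ^ n • (FormalMultilinearSeries.ofScalars ℝ
        fun j => ((Complex.I * ((k : ℝ) + 1 : ℝ)) ^ j).re).coeff n) =
        fun n => Complex.reCLM ((Complex.I * ((k : ℝ) + 1 : ℝ) * z) ^ n) := by
      ext n
      rw [FormalMultilinearSeries.coeff_ofScalars, mul_pow _ (z : ℂ), ← Complex.ofReal_pow,
        Complex.reCLM_apply, Complex.re_mul_ofReal, smul_eq_mul, mul_comm]
    have e2 : F k (0 + z) = Complex.reCLM (1 - Complex.I * ((k : ℝ) + 1 : ℝ) * z)⁻¹ := by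
      simp [F, Complex.inv_re, Complex.normSq_apply]
      ring
    rw [e1, e2]
    exact h1
  exact congrFun (FormalMultilinearSeries.ofScalars_series_injective ℝ ℝ
    (h.analyticAt.hasFPowerSeriesAt.eq_formalMultilinearSeries h)) j

theorem small (x : ℝ) (h : ∀ k : ℕ, |((k : ℝ) + 1) ^ 2 * x ^ 2| < 1) : x = 0 := by
  by_contra hx
  obtain ⟨k, hk⟩ := exists_nat_gt (1 / x ^ 2)
  have h1 := (abs_lt.1 (h k)).2
  have h2 : 0 < x ^ 2 := by positivity
  rw [div_lt_iff₀ h2] at hk
  have : (0 : ℝ) ≤ k := by positivity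
  nlinarith [mul_nonneg (mul_nonneg this this) h2.le]

theorem nil (A : Matrix (Fin 2) (Fin 2) ℝ) (h : ∀ k, ∃ B, MatExt (F k) A B) : A ^ 2 = 0 := by
  have h1 : ∀ k : ℕ, Tendsto (fun j => (-((k : ℝ) + 1) ^ 2) ^ j • (A ^ 2) ^ j) atTop (𝓝 0) := by
    intro k
    obtain ⟨B, hB⟩ := h k
    have h2 := (hB.comp (tendsto_add_atTop_nat 1)).sub hB
    rw [sub_self] at h2
    refine (h2.comp (tendsto_id.const_mul_atTop' (by norm_num : 0 < 2))).congr fun j => ?_
    simp only [Function.comp, Finset.sum_range_succ, add_sub_cancel_left, id, coef, pow_mul]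
    rw [mul_pow, Complex.I_sq, ← Complex.ofReal_pow, neg_one_mul, ← Complex.ofReal_neg,
      ← Complex.ofReal_pow, Complex.ofReal_re]
  have hd : A.det = 0 := by
    refine small _ fun k => ?_
    have h2 := ((continuous_id.matrix_det).tendsto _).comp (h1 k)
    have h3 : Tendsto (fun j : ℕ => (((k : ℝ) + 1) ^ 4 * A.det ^ 2) ^ j) atTop (𝓝 0) := by
      refine (h2.congr fun j => ?_).mono_right (by simp)
      simp only [Function.comp, id, Matrix.det_smul, Matrix.det_pow, Fintype.card_fin]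
      rw [mul_pow, ← pow_mul _ j 2, mul_comm j 2, pow_mul]
      ring
    have h4 := (abs_lt.1 (tendsto_pow_atTop_nhds_zero_iff.1 h3)).2
    have : (0 : ℝ) ≤ k := by positivity
    rw [abs_of_nonneg (by positivity)]
    refine lt_of_le_of_lt ?_ h4
    gcongr <;> linarith
  have hA : A ^ 2 = A.trace • A := by
    rw [Matrix.det_fin_two] at hd
    ext i j
    fin_cases i <;> fin_cases j <;>
      simp [pow_two, Matrix.mul_apply, Fin.sum_univ_two, Matrix.trace_fin_two] <;>
      linarith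
  have hp : ∀ m, A ^ (m + 1) = A.trace ^ m • A := by
    intro m
    induction m with
    | zero => simp
    | succ m ih => rw [pow_succ, ih, smul_mul_assoc, ← pow_two, hA, smul_smul, pow_succ]
  have ht : A.trace = 0 := by
    refine small _ fun k => ?_
    have h2 := (((continuous_id.matrix_trace).tendsto _).comp (h1 k)).comp
      (tendsto_add_atTop_nat 1)
    have h3 : Tendsto (fun j : ℕ => (-((k : ℝ) + 1) ^ 2 * A.trace ^ 2) ^ (j + 1)) atTop (𝓝 0) := by
      refine (h2.congr fun j => ?_).mono_right (by simp)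
      simp only [Function.comp, id, Matrix.trace_smul, smul_eq_mul]
      rw [← pow_mul, show 2 * (j + 1) = 2 * j + 1 + 1 by ring, hp, Matrix.trace_smul, smul_eq_mul,
        mul_pow]
      ring
    have h4 := tendsto_pow_atTop_nhds_zero_iff.1 ((tendsto_add_atTop_iff_nat 1).1 h3)
    rwa [neg_mul, abs_neg] at h4
  rw [hA, ht, zero_smul]

theorem poly (I : Set ℝ) (hI : I.Infinite) (P Q : ℝ[X]) (hQ : Q ≠ 0)
    (h : ∀ z ∈ I, Q.eval z ≠ 0 → P.eval z = 0) : P = 0 := by
  refine (mul_eq_zero.1 (eq_zero_of_infinite_isRoot (P * Q) (hI.mono fun z hz => ?_))).resolve_right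
    hQ
  simp only [Set.mem_setOf_eq, IsRoot.def, eval_mul, mul_eq_zero]
  by_cases e : Q.eval z = 0
  exacts [Or.inr e, Or.inl (h z hz e)]

theorem result (I : Set ℝ) (hI : IsOpen I) (_hc : I.OrdConnected) (h0 : (0 : ℝ) ∈ I) :
    ∃ f g : ℕ → ℝ → ℝ, (∀ k, AnalyticOnNhd ℝ (f k) I ∧ AnalyticOnNhd ℝ (g k) I) ∧
      (∀ k a b c d, (c, d) ≠ (0, 0) → ¬ Coincide I (g k) id a b c d) ∧
      (∀ k₁ k₂ a b c d, (c, d) ≠ (0, 0) → ¬ Coincide I (f k₁) (g k₂) a b c d) ∧
      ¬ ∃ A : Matrix (Fin 2) (Fin 2) ℝ, IsLiou A ∧ ∀ k, ∃ B C, MatExt (f k) A B ∧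
        MatExt (g k) A C ∧ IsLiou B ∧ ¬ IsLiou C := by
  have hinf : I.Infinite := infinite_of_mem_nhds 0 (hI.mem_nhds h0)
  refine ⟨F, fun _ z => z ^ 3, fun k => ⟨fun z _ => ?_, fun z _ => by fun_prop⟩, ?_, ?_, ?_⟩
  · exact analyticAt_const.div (by fun_prop) (by positivity)
  · intro _ a b c d hcd h
    have hQ : (C c * X + C d : ℝ[X]) ≠ 0 := fun e => hcd (by
      have e0 := congrArg (coeff · 0) e
      have e1 := congrArg (coeff · 1) e
      simp at e0 e1
      rw [e0, e1])
    have := poly I hinf (C c * X ^ 4 + C d * X ^ 3 - C a * X - C b) _ hQ fun z hz e => by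
      simp only [eval_add, eval_mul, eval_C, eval_X, eval_sub, eval_pow] at e ⊢
      have := h z hz e
      simp only [id] at this
      rw [eq_div_iff e] at this
      linarith
    have e0 := congrArg (coeff · 3) this
    have e1 := congrArg (coeff · 4) this
    simp [coeff_X, coeff_C] at e0 e1
    exact hcd (by rw [e0, e1])
  · intro k _ a b c d hcd h
    have hQ : (C c * X ^ 3 + C d : ℝ[X]) ≠ 0 := fun e => hcd (by
      have e0 := congrArg (coeff · 0) e
      have e1 := congrArg (coeff · 3) e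
      simp [coeff_C] at e0 e1
      rw [e0, e1])
    have := poly I hinf (C (a * (k + 1) ^ 2) * X ^ 5 + C (a - c) * X ^ 3 +
        C (b * (k + 1) ^ 2) * X ^ 2 + C (b - d)) _ hQ fun z hz e => by
      simp only [eval_add, eval_mul, eval_C, eval_X, eval_pow] at e ⊢
      have := h z hz e
      simp only [F] at this
      rw [div_eq_div_iff (by positivity) e] at this
      linarith
    have e0 := congrArg (coeff · 0) this
    have e2 := congrArg (coeff · 2) this
    have e3 := congrArg (coeff · 3) this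
    have e5 := congrArg (coeff · 5) this
    simp only [coeff_add, coeff_C_mul, coeff_X_pow, coeff_C, coeff_zero] at e0 e2 e3 e5
    norm_num at e0 e2 e3 e5
    have hk : (k : ℝ) + 1 ≠ 0 := by positivity
    have ha := e5.resolve_right hk
    have hb := e2.resolve_right hk
    exact hcd (by rw [show c = 0 by linarith, show d = 0 by linarith])
  · rintro ⟨A, -, h⟩
    have hA := nil A fun k => let ⟨B, _, hB, _⟩ := h k; ⟨B, hB⟩
    obtain ⟨B, -, hB, -, hL, -⟩ := h 0
    have h1 : MatExt (F 0) A 1 := by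
      refine tendsto_const_nhds.congr' ?_
      filter_upwards [eventually_ge_atTop 2] with m hm
      obtain ⟨m, rfl⟩ : ∃ t, m = t + 2 := ⟨m - 2, by omega⟩
      rw [Finset.sum_range_succ', Finset.sum_range_succ', Finset.sum_eq_zero fun j _ => by
        rw [add_assoc, pow_add A, hA, mul_zero, smul_zero]]
      simp only [coef]
      simp
    rw [tendsto_nhds_unique hB h1] at hL
    exact hL.1 1 1 (by simp) (by simp)

end Pool.Agent.Results.MP_4d0c5f_nt.No
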